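import Pool.Agent.H691.MM.All

/-!
# Computing a max-min area triangulation is NP-hard

A *triangulation* of a finite set `S` of points of the plane (with rational coordinates) is a
maximal family of pairwise non-crossing straight-line segments with endpoints in `S` whose relative
interiors contain no point of `S`.  Given `S` and a rational number `A` it is NP-hard to decide
whether some triangulation of `S` has all triangle areas at least `A`.  This holds already for
sets of `n` points with natural coordinates below `100 n` and natural `A` below `100 n`, and already
under the promise that otherwise every triangulation has a triangle of area at most `A / 2`; so the
problem is strongly NP-hard, and the max-min area is hard to approximate by a factor below 2.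

Proof.  The sets have the form `S = {N p : p in B} ∪ {N w + (1, 0) : w in W}` where `B` is the set
of all lattice points of a box, `W` is a set of lattice points of the box (special points), and `N`
is larger than four times the height of the box; the area bound is `A = N`.  All doubled areas are
multiples of `N`.

*Geometry.*  If all areas are at least `N` then the triangulation is close to a family of segments of
the lattice points `N B`, and for every special point `w` there are a primitive vector `a` with
`a.2 ≥ 2` and a primitive vector `b` with `b.2 ≤ -2` such that the segments `[w, w + a]`,
`[w, w + b]` of all special points stay in the box and do not cross properly (a *selection*).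
Conversely, every selection whose segments do not end in special points gives such a
triangulation: complete the segments to a triangulation of `B` and split the special points along
their two segments.

*Reduction.*  Adjacent special points force each other to have vectors with slopes of the same sign;
wires are columns of special points, or strips of two rows.  Small clusters of special points
restrict the signs of the wires that meet there.  A formula of 3SAT is translated to a grid of
tiles of size `21 x 39` of eight types.  Every literal is a row, every clause a column; a signal
(there is a true literal below) travels up the column, is negative at the bottom and must be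
positive at the top, and can become positive only in a tile where the row of a literal of the
clause carries the value true.  The tiles of column 0 lie on the left side of the box, where all
vectors point to the right; they force that not both a variable and its negation are true, and
generate the constants.

*Verification.*  The necessary conditions of the tiles are proved by refutations that are checked by
the kernel: a primitive vector with `a.2 ≥ 2` has one of 38 types (short vectors and open cones),
certificates eliminate types of special points by crossings that hold for all vectors of the
types.  The sufficiency is proved by explicit selections for all types and states of tiles,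
checked by the kernel.
-/

set_option autoImplicit false

namespace Pool.Agent.Results.MP_f9630a_lc.MaxMinAreaNPHard

open Pool.Agent.NPC Pool.Agent.W982.TA.Q

/-- some triangulation of `S` has all triangle areas at least `A` -/
def MaxMinArea (S : Finset (ℚ × ℚ)) (A : ℚ) : Prop :=
  ∃ T, IsTriangulation S T ∧ ∀ a b c, IsTriangle S T a b c → A ≤ area a b c

/-- The decision version: the input is a list without repetitions of points with rational
coordinates, not all on a line, and a rational number `A`; the question is whether some
triangulation of the set of these points has all triangle areas at least `A`. -/
def maxMinAreaProblem (I : List (ℚ × ℚ) × ℚ) : Prop :=
  I.1.Nodup ∧ ¬ Collinear ℝ {x | ∃ p ∈ I.1, x = pt p} ∧ MaxMinArea I.1.toFinset I.2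

/-- **The decision version of the computation of a max-min area triangulation is NP-hard**, and
this is true already for sets of `n` points with natural coordinates below `100 n` and natural area
bounds `A` below `100 n`, and for the distinction between the sets that have a triangulation with all
areas at least `A` and the sets all of whose triangulations have a triangle of area at most
`A / 2`. -/
theorem result : NPHardP maxMinAreaProblem ∧
    ∀ L : Set (List Bool), InNP L → ∃ f : List Bool → List (ℚ × ℚ) × ℚ,
      PolyTime (fun w => bits (f w)) ∧ ∀ w,
        (f w).1.Nodup ∧ ¬ Collinear ℝ {x | ∃ p ∈ (f w).1, x = pt p} ∧
        (∀ p ∈ (f w).1, ∃ a b : ℕ, a < 100 * (f w).1.length ∧ b < 100 * (f w).1.length ∧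
          p = ((a : ℚ), (b : ℚ))) ∧
        (∃ A : ℕ, 0 < A ∧ A < 100 * (f w).1.length ∧ (f w).2 = (A : ℚ)) ∧
        ∀ B : ℚ, (f w).2 / 2 < B → B ≤ (f w).2 → (w ∈ L ↔ MaxMinArea (f w).1.toFinset B) := by
  refine ⟨?_, Pool.Agent.H691.MM.all⟩
  intro L hL
  obtain ⟨f, hf, h⟩ := Pool.Agent.H691.MM.all L hL
  refine ⟨fun w => bits (f w), hf, fun w => ?_⟩
  obtain ⟨h1, h2, _, ⟨A, hA0, _, hA⟩, h4⟩ := h w
  have hp : (0 : ℚ) < (f w).2 := by
    rw [hA]
    exact_mod_cast hA0
  rw [h4 (f w).2 (by linarith) le_rfl]
  constructor
  · intro hm
    exact ⟨f w, rfl, h1, h2, hm⟩
  · rintro ⟨I, hI, _, _, hm⟩
    rw [bits_injective hI] at hm
    exact hm

end Pool.Agent.Results.MP_f9630a_lc.MaxMinAreaNPHard
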